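import Pool.Agent.Helper92.CM.Unif
import Pool.Agent.Helper92.CM.Wrap
import Pool.Agent.Helper92.CM.Ex
import Pool.Agent.N784.HC.Exi

/-!
# The zeros of `L(E/K, s)` off the line `Re s = 1`, for the abelian extensions `K` of any number field
over which `E` has complex multiplication

`E : y² = x³ + a x + b` is an elliptic curve over `ℚ` with complex multiplication, `M` is ANY number
field, of any degree and with any Galois group, over which the multiplication is defined, `d = [M : ℚ]`,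
and `K` is a finite abelian extension of `M` whose conductor divides the ideal `𝔮` of `M` (`𝔮` is
divisible by the conductor of the Hecke character of `E` and by the primes dividing `2(4a³ + 27b²)`).

We prove a density theorem of the quality of Selberg's (no loss at the line `Re s = 1`), for windows
of any length `H ≥ 1`: if `1/2 < h ≤ 1`, `0 < c < 2h - 1` and `X = N(𝔮) T^d`, `X^h ≤ N(𝔮)`, then for
all `|t₁| ≤ T`, `1 ≤ H ≤ T`, `δ ≥ 0`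

`#{ρ : L(E/K, ρ) = 0, Re ρ ≥ 1 + δ, t₁ ≤ Im ρ ≤ t₁ + H} ≤ A N(𝔮) H log X · X^(-c δ)`,

and the same for `|Re ρ - 1| ≥ δ` if `t₁ ≥ 1`.  The constant `A` depends only on `M`, `h`, `c`: it is the
same for all the curves `E` with complex multiplication defined over `M`, for all `𝔮` and for all `K`.
If `K` is the full (narrow) ray class field modulo `𝔮`, this is compared with the number of all the
zeros: the proportion of the zeros with `T < Im ρ ≤ 2T` and `|Re ρ - 1| ≥ δ` is at most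
`A (N(𝔮)/φ(𝔮)) U(𝔮) X^(-c δ)`, where `U(𝔮)` is the number of the residue classes modulo `𝔮` which contain
units of `M`.  So 100 per cent of the zeros are within `ε` of the line, and within `ψ/log X`, for every
function `ψ` tending to infinity, if `φ(𝔮) ≫ N(𝔮)` and the number of the classes of units is bounded
(for example if `M` is the field of complex multiplication).

Proof.  (1) The law of decomposition in `K/M` from the Artin map; the count of the points of `E` over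
the residue fields of `K` in terms of the residue fields of `M` (Weil's method, valid for every
`y² = x³ + a x + b`); so `L(E/K, s)` is the product of `L(s - 1/2, ψχ)` and `L(s - 1/2, conj(ψχ))`, `χ` the
characters of `Gal(K/M)`, `ψ` the Hecke character of `E`.  (2) The mollified large sieve for all the
Hecke characters of a given infinity type modulo `𝔮` of an arbitrary number field (starting modules
`Pool.Agent.N784.CZ.Den`, `Pool.Agent.N786.D`), applied to the type of `ψ` and to the conjugate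
type, the functional equation for the zeros to the left of the line, and a crude bound for the at
most `2^r h(M)` characters of conductor one.  (3) The order of the ray class group times the number of
classes of units is at most `2^r h(M) φ(𝔮)`.
-/

set_option autoImplicit false

open Complex NumberField IsDedekindDomain

namespace Pool.Agent.Results.MP_fb225e_nt.AbelianExtensionsDensity

/-- `K/M` is a finite abelian extension whose conductor divides `𝔮`: `ι` embeds the ring of integers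
of `M` into that of `K`, and `art` is the Artin map (used only for the ideals prime to `𝔮`), with values
in the automorphisms of the ring of integers of `K` (equivalently, of `K`), such that
* `art` is multiplicative,
* the integers of `M` are the invariants (so `K/M` is Galois and `art` is surjective onto its group),
* `art` is trivial on the ideals `𝔞` with `(x) 𝔞 = (y)` for some totally positive `x, y ≡ 1 mod 𝔮` (so
  it factors through the narrow ray class group modulo `𝔮`),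
* `K/M` is unramified outside `𝔮`: the inertia group at every prime `v` of `K` not dividing `𝔮` is
  trivial,
* for every prime ideal `𝔭` not dividing `𝔮`, `art 𝔭` is the Frobenius automorphism
  `x ↦ x ^ N(𝔭)` at all primes `v` of `K` above `𝔭`. -/
structure IsAbelianExtension {M : Type} [Field M] [NumberField M] (𝔮 : Ideal (𝓞 M)) (K : Type)
    [Field K] [NumberField K] (ι : 𝓞 M →+* 𝓞 K) (art : Ideal (𝓞 M) → (𝓞 K ≃+* 𝓞 K)) : Prop where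
  mul : ∀ 𝔞 𝔟 : Ideal (𝓞 M), IsCoprime 𝔞 𝔮 → IsCoprime 𝔟 𝔮 → art (𝔞 * 𝔟) = art 𝔞 * art 𝔟
  invariants : ∀ x : 𝓞 K, (∀ 𝔞 : Ideal (𝓞 M), IsCoprime 𝔞 𝔮 → art 𝔞 x = x) ↔ x ∈ ι.range
  ray : ∀ 𝔞 : Ideal (𝓞 M), IsCoprime 𝔞 𝔮 → (∃ x y : 𝓞 M, x - 1 ∈ 𝔮 ∧ y - 1 ∈ 𝔮 ∧
    (∀ τ : M →+* ℝ, 0 < τ x) ∧ (∀ τ : M →+* ℝ, 0 < τ y) ∧ Ideal.span {x} * 𝔞 = Ideal.span {y}) →
    art 𝔞 = 1
  unramified : ∀ v : HeightOneSpectrum (𝓞 K), ¬ 𝔮.map ι ≤ v.asIdeal →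
    ∀ 𝔞 : Ideal (𝓞 M), IsCoprime 𝔞 𝔮 → (∀ x, art 𝔞 x - x ∈ v.asIdeal) → art 𝔞 = 1
  frobenius : ∀ 𝔭 : Ideal (𝓞 M), 𝔭.IsPrime → IsCoprime 𝔭 𝔮 → ∀ v : HeightOneSpectrum (𝓞 K),
    𝔭.map ι ≤ v.asIdeal → ∀ x : 𝓞 K, art 𝔭 x - x ^ Ideal.absNorm 𝔭 ∈ v.asIdeal

/-- `K` is the narrow ray class field of `M` of modulus `𝔮`: moreover the kernel of the Artin map
consists of the ideals `𝔞` with `(x) 𝔞 = (y)` for some totally positive `x, y ≡ 1 mod 𝔮`. -/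
structure IsRayClassField {M : Type} [Field M] [NumberField M] (𝔮 : Ideal (𝓞 M)) (K : Type)
    [Field K] [NumberField K] (ι : 𝓞 M →+* 𝓞 K) (art : Ideal (𝓞 M) → (𝓞 K ≃+* 𝓞 K)) : Prop
    extends IsAbelianExtension 𝔮 K ι art where
  kernel : ∀ 𝔞 : Ideal (𝓞 M), IsCoprime 𝔞 𝔮 → art 𝔞 = 1 → ∃ x y : 𝓞 M, x - 1 ∈ 𝔮 ∧ y - 1 ∈ 𝔮 ∧
    (∀ τ : M →+* ℝ, 0 < τ x) ∧ (∀ τ : M →+* ℝ, 0 < τ y) ∧ Ideal.span {x} * 𝔞 = Ideal.span {y}

/-- For an ideal `I ≠ 0` of the integers of a number field: `N(I)` minus the number of the solutions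
`(x, y)` of `y² = x³ + a x + b` modulo `I`.  At a prime ideal of good reduction this is the trace of
Frobenius. -/
noncomputable def trace {F : Type} [Field F] [NumberField F] (I : Ideal (𝓞 F)) (a b : ℤ) : ℤ :=
  ((Ideal.absNorm I : ℕ) : ℤ) - ((Nat.card {p : (𝓞 F ⧸ I) × (𝓞 F ⧸ I) //
    p.2 ^ 2 = p.1 ^ 3 + (a : 𝓞 F ⧸ I) * p.1 + (b : 𝓞 F ⧸ I)} : ℕ) : ℤ)

/-- `ψ` is the (unitary) Hecke character over `M` of the elliptic curve `E : y² = x³ + a x + b` with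
complex multiplication defined over `M`; it is given on the ideals prime to `𝔪`:
* the infinity type `n` takes the value one at exactly one of any two conjugate embeddings of `M`
  (for a curve with complex multiplication by an order of `F ⊂ M`, at the embeddings which extend a
  fixed embedding of `F`),
* `ψ` is multiplicative, and `ψ((x)) = ∏ (φ(x)/|φ(x)|)^(n φ)` for all (totally positive) `x ≡ 1 mod 𝔪`,
* `𝔪` is divisible by all the prime ideals dividing `2 (4a³ + 27b²)`,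
* for all prime ideals `𝔭` not dividing `𝔪` the trace of Frobenius of `E` at `𝔭` is
  `√N(𝔭) (ψ(𝔭) + conj ψ(𝔭))`.
By a theorem of Deuring such `ψ` and `𝔪 ≠ 0` exist for every `E` with complex multiplication defined
over `M`. -/
structure IsHeckeCharacter {M : Type} [Field M] [NumberField M] (a b : ℤ) (n : (M →+* ℂ) → ℕ)
    (𝔪 : Ideal (𝓞 M)) (ψ : Ideal (𝓞 M) → ℂ) : Prop where
  type : ∀ φ : M →+* ℂ, n φ + n (ComplexEmbedding.conjugate φ) = 1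
  mul : ∀ 𝔞 𝔟 : Ideal (𝓞 M), IsCoprime 𝔞 𝔪 → IsCoprime 𝔟 𝔪 → ψ (𝔞 * 𝔟) = ψ 𝔞 * ψ 𝔟
  principal : ∀ x : 𝓞 M, x - 1 ∈ 𝔪 → (∀ τ : M →+* ℝ, 0 < τ x) →
    ψ (Ideal.span {x}) = ∏ φ : M →+* ℂ, (φ x / (‖φ x‖ : ℂ)) ^ n φ
  bad : ∀ 𝔭 : Ideal (𝓞 M), 𝔭.IsPrime →
    (2 * (4 * (a : 𝓞 M) ^ 3 + 27 * (b : 𝓞 M) ^ 2)) ∈ 𝔭 → 𝔪 ≤ 𝔭
  frobenius : ∀ 𝔭 : Ideal (𝓞 M), 𝔭.IsPrime → 𝔭 ≠ ⊥ → IsCoprime 𝔭 𝔪 →
    (trace 𝔭 a b : ℂ) = (Real.sqrt (Ideal.absNorm 𝔭) : ℂ) * (ψ 𝔭 + (starRingEnd ℂ) (ψ 𝔭))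

/-- `1 - a n^(-s) + ε n^(1-2s)` -/
noncomputable def localPoly (a ε : ℤ) (n : ℕ) (s : ℂ) : ℂ :=
  1 - (a : ℂ) * (n : ℂ) ^ (-s) + (ε : ℂ) * (n : ℂ) ^ (1 - 2 * s)

/-- the `(a, ε)` which are possible for the Euler factor `(1 - a n^(-s) + ε n^(1-2s))⁻¹` of an
elliptic curve at a place with `n` residue classes: `ε = 1` and `a² ≤ 4 n` (good reduction, Hasse) or
`ε = 0` and `a ∈ {-1, 0, 1}` (bad reduction) -/
def Possible (n : ℕ) (a ε : ℤ) : Prop := (ε = 1 ∧ a ^ 2 ≤ 4 * (n : ℤ)) ∨ (ε = 0 ∧ a ^ 2 ≤ 1)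

section

variable {M : Type} [Field M] [NumberField M] {K : Type} [Field K] [NumberField K]

open Classical in
/-- The Euler factor at `v` of `E : y² = x³ + a x + b` over `K`.  If `v` does not divide `𝔮` (then it does
not divide `2 (4a³ + 27b²)`, the reduction is good) it is `(1 - a_v (Nv)^(-s) + (Nv)^(1-2s))⁻¹`, where
`a_v` is `Nv` minus the number of the affine points of the reduction; for the finitely many other
places it is the factor given by `(α v, β v)`. -/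
noncomputable def factor (𝔮 : Ideal (𝓞 M)) (ι : 𝓞 M →+* 𝓞 K) (a b : ℤ)
    (α β : HeightOneSpectrum (𝓞 K) → ℤ) (s : ℂ) (v : HeightOneSpectrum (𝓞 K)) : ℂ :=
  if 𝔮.map ι ≤ v.asIdeal then (localPoly (α v) (β v) (Ideal.absNorm v.asIdeal) s)⁻¹
  else (localPoly (trace v.asIdeal a b) 1 (Ideal.absNorm v.asIdeal) s)⁻¹

/-- `L` is the L-function of `E : y² = x³ + a x + b` over `K`, with the Euler factors given by `α`, `β`
at the places dividing `𝔮`: it is analytic for `Re s > 1/2`, for `Re s > 3/2` it is the product over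
all places of `K` of the Euler factors, and its product with the (finitely many) local polynomials at
the places dividing `𝔮` is entire -/
structure IsLFunction (𝔮 : Ideal (𝓞 M)) (ι : 𝓞 M →+* 𝓞 K) (a b : ℤ)
    (α β : HeightOneSpectrum (𝓞 K) → ℤ) (L : ℂ → ℂ) : Prop where
  analytic : AnalyticOnNhd ℂ L {s : ℂ | 1 / 2 < s.re}
  euler : ∀ s : ℂ, 3 / 2 < s.re → HasProd (factor 𝔮 ι a b α β s) (L s)
  finite : {v : HeightOneSpectrum (𝓞 K) | 𝔮.map ι ≤ v.asIdeal}.Finite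
  entire : ∃ G : ℂ → ℂ, Differentiable ℂ G ∧ ∀ s : ℂ, 1 / 2 < s.re →
    G s = L s * ∏ᶠ v ∈ {v : HeightOneSpectrum (𝓞 K) | 𝔮.map ι ≤ v.asIdeal},
      localPoly (α v) (β v) (Ideal.absNorm v.asIdeal) s

/-- the number of the residue classes modulo `𝔮` which contain a unit of `M` -/
noncomputable def unitClasses (𝔮 : Ideal (𝓞 M)) : ℕ :=
  (Set.range (fun u : (𝓞 M)ˣ => Ideal.Quotient.mk 𝔮 (u : 𝓞 M))).ncard

end

/-- The number of the zeros of `L` in `W`, counted with multiplicity. -/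
noncomputable def N (L : ℂ → ℂ) (W : Set ℂ) : ℕ :=
  ∑ᶠ s ∈ {s : ℂ | s ∈ W ∧ L s = 0}, analyticOrderNatAt L s

/-- `1 + δ ≤ Re s`, `t₁ ≤ Im s ≤ t₁ + H` -/
def right (t₁ H δ : ℝ) : Set ℂ := {s : ℂ | 1 + δ ≤ s.re ∧ t₁ ≤ s.im ∧ s.im ≤ t₁ + H}

/-- `1/2 < Re s`, `|Re s - 1| ≥ δ`, `t₁ ≤ Im s ≤ t₁ + H` -/
def away (t₁ H δ : ℝ) : Set ℂ :=
  {s : ℂ | 1 / 2 < s.re ∧ δ ≤ |s.re - 1| ∧ t₁ ≤ s.im ∧ s.im ≤ t₁ + H}

/-- `1/2 < Re s`, `T < Im s ≤ 2T`, `|Re s - 1| ≥ δ` -/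
def dyadic (T δ : ℝ) : Set ℂ := {s : ℂ | 1 / 2 < s.re ∧ T < s.im ∧ s.im ≤ 2 * T ∧ δ ≤ |s.re - 1|}

/-- The bounds for the zeros: for all `1 ≤ H ≤ T` with `X^h ≤ N(𝔮)`, `X = N(𝔮) T^d`, `d = [M : ℚ]`, all
`|t₁| ≤ T` and `δ ≥ 0`, `L` has finitely many zeros with `Re s > 1/2`, `t₁ ≤ Im s ≤ t₁ + H`, at most
`A N(𝔮) H log X X^(-c δ)` of them have `Re s ≥ 1 + δ`, and if `t₁ ≥ 1`, at most
`A N(𝔮) H log X X^(-c δ)` of them have `|Re s - 1| ≥ δ`. -/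
def ZeroBounds {M : Type} [Field M] [NumberField M] (𝔮 : Ideal (𝓞 M)) (L : ℂ → ℂ)
    (h c A : ℝ) : Prop :=
  ∀ T H : ℝ, 1 ≤ H → H ≤ T →
    ((Ideal.absNorm 𝔮 : ℝ) * T ^ Module.finrank ℚ M) ^ h ≤ (Ideal.absNorm 𝔮 : ℝ) →
    ∀ t₁ : ℝ, |t₁| ≤ T → ∀ δ : ℝ, 0 ≤ δ →
      {s : ℂ | 1 / 2 < s.re ∧ t₁ ≤ s.im ∧ s.im ≤ t₁ + H ∧ L s = 0}.Finite ∧
      (N L (right t₁ H δ) : ℝ) ≤ A * ((Ideal.absNorm 𝔮 : ℝ) * H *
        Real.log ((Ideal.absNorm 𝔮 : ℝ) * T ^ Module.finrank ℚ M) *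
        ((Ideal.absNorm 𝔮 : ℝ) * T ^ Module.finrank ℚ M) ^ (-(c * δ))) ∧
      (1 ≤ t₁ → (N L (away t₁ H δ) : ℝ) ≤ A * ((Ideal.absNorm 𝔮 : ℝ) * H *
        Real.log ((Ideal.absNorm 𝔮 : ℝ) * T ^ Module.finrank ℚ M) *
        ((Ideal.absNorm 𝔮 : ℝ) * T ^ Module.finrank ℚ M) ^ (-(c * δ))))

/-- The share of the zeros away from the line: for all `T ≥ N(𝔮)^η` with `X^h ≤ N(𝔮)`,
`X = N(𝔮) T^d`, `d = [M : ℚ]`, and all `δ ≥ 0`, the proportion of the zeros of `L` with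
`T < Im s ≤ 2T` and `|Re s - 1| ≥ δ` is at most `A (N(𝔮)/φ(𝔮)) U(𝔮) X^(-c δ)`. -/
def ShareBound {M : Type} [Field M] [NumberField M] (𝔮 : Ideal (𝓞 M)) (L : ℂ → ℂ)
    (h c η A : ℝ) : Prop :=
  ∀ T : ℝ, (Ideal.absNorm 𝔮 : ℝ) ^ η ≤ T →
    ((Ideal.absNorm 𝔮 : ℝ) * T ^ Module.finrank ℚ M) ^ h ≤ (Ideal.absNorm 𝔮 : ℝ) →
    ∀ δ : ℝ, 0 ≤ δ → (Nat.card (𝓞 M ⧸ 𝔮)ˣ : ℝ) * (N L (dyadic T δ) : ℝ) ≤
      A * ((Ideal.absNorm 𝔮 : ℝ) * unitClasses 𝔮 *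
        ((Ideal.absNorm 𝔮 : ℝ) * T ^ Module.finrank ℚ M) ^ (-(c * δ))) *
        (N L (dyadic T 0) : ℝ)

/-- The density theorem: for `h ≤ 1`, `0 < c < 2h - 1` there is a constant `A`, depending only on `M`,
`h`, `c`, such that for all `E : y² = x³ + a x + b` with a Hecke character over `M`, all ideals `𝔮 ≠ 0`
divisible by its modulus, all finite abelian extensions `K/M` whose conductor divides `𝔮` and all
possible Euler factors at the places dividing `𝔮` there is the L-function, and `ZeroBounds` hold. -/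
def DensityTheorem : Prop :=
  ∀ (M : Type) [Field M] [NumberField M] (h c : ℝ), h ≤ 1 → 0 < c → c < 2 * h - 1 →
    ∃ A : ℝ, 1 ≤ A ∧ ∀ (a b : ℤ) (n : (M →+* ℂ) → ℕ) (𝔪 : Ideal (𝓞 M)) (ψ : Ideal (𝓞 M) → ℂ),
    IsHeckeCharacter a b n 𝔪 ψ → ∀ 𝔮 : Ideal (𝓞 M), 𝔮 ≠ ⊥ → 𝔮 ≤ 𝔪 →
    ∀ (K : Type) [Field K] [NumberField K] (ι : 𝓞 M →+* 𝓞 K)
      (art : Ideal (𝓞 M) → (𝓞 K ≃+* 𝓞 K)), IsAbelianExtension 𝔮 K ι art →
    ∀ α β : HeightOneSpectrum (𝓞 K) → ℤ, (∀ v : HeightOneSpectrum (𝓞 K), 𝔮.map ι ≤ v.asIdeal →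
      Possible (Ideal.absNorm v.asIdeal) (α v) (β v)) →
    ∃ L : ℂ → ℂ, IsLFunction 𝔮 ι a b α β L ∧ ZeroBounds 𝔮 L h c A

/-- For ray class fields: for `h ≤ 1`, `0 < c < 2h - 1` there is a constant `A`, depending only on `M`,
`h`, `c`, and for `η > 0` there are `δ₀ > 0`, `X₀`, depending only on `M`, `h`, `c`, `η`, such that for all
`E` with a Hecke character over `M`, all ideals `𝔮 ≠ 0` divisible by its modulus, with `N(𝔮) ≥ X₀` and at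
most `N(𝔮)^δ₀` classes of units, and for the ray class field `K` of `M` of modulus `𝔮`, `ShareBound`
holds. -/
def ShareTheorem : Prop :=
  ∀ (M : Type) [Field M] [NumberField M] (h c : ℝ), h ≤ 1 → 0 < c → c < 2 * h - 1 →
    ∃ A : ℝ, 1 ≤ A ∧ ∀ η : ℝ, 0 < η → ∃ δ₀ X₀ : ℝ, 0 < δ₀ ∧
    ∀ (a b : ℤ) (n : (M →+* ℂ) → ℕ) (𝔪 : Ideal (𝓞 M)) (ψ : Ideal (𝓞 M) → ℂ),
    IsHeckeCharacter a b n 𝔪 ψ → ∀ 𝔮 : Ideal (𝓞 M), 𝔮 ≠ ⊥ → 𝔮 ≤ 𝔪 →
    X₀ ≤ (Ideal.absNorm 𝔮 : ℝ) → (unitClasses 𝔮 : ℝ) ≤ (Ideal.absNorm 𝔮 : ℝ) ^ δ₀ →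
    ∀ (K : Type) [Field K] [NumberField K] (ι : 𝓞 M →+* 𝓞 K)
      (art : Ideal (𝓞 M) → (𝓞 K ≃+* 𝓞 K)), IsRayClassField 𝔮 K ι art →
    ∀ α β : HeightOneSpectrum (𝓞 K) → ℤ, (∀ v : HeightOneSpectrum (𝓞 K), 𝔮.map ι ≤ v.asIdeal →
      Possible (Ideal.absNorm v.asIdeal) (α v) (β v)) →
    ∃ L : ℂ → ℂ, IsLFunction 𝔮 ι a b α β L ∧ ShareBound 𝔮 L h c η A

lemma possible_iff (n : ℕ) (a ε : ℤ) : Possible n a ε ↔ Pool.Agent.W164.RC.Poss n a ε := Iff.rfl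

lemma trace_eq {F : Type} [Field F] [NumberField F] (I : Ideal (𝓞 F)) (a b : ℤ) :
    trace I a b = Pool.Agent.Helper92.CM.trc (𝓞 F ⧸ I) a b := by
  unfold trace Pool.Agent.Helper92.CM.trc
  rw [Ideal.absNorm_apply, Submodule.cardQuot_apply]

section

variable {M : Type} [Field M] [NumberField M] {K : Type} [Field K] [NumberField K]

lemma isCM_of {a b : ℤ} {n : (M →+* ℂ) → ℕ} {𝔪 : Ideal (𝓞 M)} {ψ : Ideal (𝓞 M) → ℂ}
    (h : IsHeckeCharacter a b n 𝔪 ψ) : Pool.Agent.Helper92.CM.IsCM a b n 𝔪 ψ where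
  ctyp φ := by
    have h1 := h.type φ
    have h2 : Pool.Agent.Y773.G.cj φ = ComplexEmbedding.conjugate φ := rfl
    rw [h2]
    omega
  ne h0 := by
    obtain ⟨φ⟩ : Nonempty (M →+* ℂ) := inferInstance
    have h1 := h.type φ
    rw [h0] at h1
    simp at h1
  mul := h.mul
  prin x hx hp := h.principal x hx hp
  bad := h.bad
  points 𝔭 hp hp0 hc := by
    rw [← trace_eq]
    exact h.frobenius 𝔭 hp hp0 hc

lemma isAb_of {𝔮 : Ideal (𝓞 M)} {ι : 𝓞 M →+* 𝓞 K} {art : Ideal (𝓞 M) → (𝓞 K ≃+* 𝓞 K)}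
    (h : IsAbelianExtension 𝔮 K ι art) : Pool.Agent.Helper92.CM.IsAb 𝔮 K ι art :=
  ⟨h.mul, h.invariants, h.ray, h.unramified, h.frobenius⟩

lemma isRCF_of {𝔮 : Ideal (𝓞 M)} {ι : 𝓞 M →+* 𝓞 K} {art : Ideal (𝓞 M) → (𝓞 K ≃+* 𝓞 K)}
    (h : IsRayClassField 𝔮 K ι art) : Pool.Agent.N784.CZ.IsRCF 𝔮 K ι art :=
  ⟨h.mul, h.invariants, fun 𝔞 h𝔞 => ⟨h.kernel 𝔞 h𝔞, h.ray 𝔞 h𝔞⟩, h.unramified, h.frobenius⟩

/-- the entire function behind an L-function -/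
lemma back {𝔮 : Ideal (𝓞 M)} {ι : 𝓞 M →+* 𝓞 K} {a b : ℤ} {α β : HeightOneSpectrum (𝓞 K) → ℤ}
    {G : ℂ → ℂ} (hG : Differentiable ℂ G) (hbot : 𝔮 ≠ ⊥)
    (hprod : ∀ s : ℂ, 3 / 2 < s.re → HasProd (open Classical in
      fun v : HeightOneSpectrum (𝓞 K) => if 𝔮.map ι ≤ v.asIdeal then 1
        else (Pool.Agent.W164.RC.lpoly (Pool.Agent.Helper92.CM.trv a b v) 1
          (Ideal.absNorm v.asIdeal) s)⁻¹) (G s))
    (hpos : ∀ v : HeightOneSpectrum (𝓞 K), 𝔮.map ι ≤ v.asIdeal →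
      Possible (Ideal.absNorm v.asIdeal) (α v) (β v)) :
    ∃ L : ℂ → ℂ, IsLFunction 𝔮 ι a b α β L ∧ ∀ W : Set ℂ, (∀ s ∈ W, 1 / 2 < s.re) →
      {s : ℂ | s ∈ W ∧ L s = 0} = {s : ℂ | s ∈ W ∧ G s = 0} ∧
      N L W = Pool.Agent.H82R3.EK.cnt G W := by
  obtain ⟨L, l1, l2, l3, l4⟩ := Pool.Agent.Helper92.CM.wrap ι hbot
    (Pool.Agent.Helper92.CM.trv a b) hG hprod α β hpos
  refine ⟨L, ⟨l1, fun s hs => ?_, Pool.Agent.Helper92.CM.exc_finite ι hbot, ⟨G, hG, l3⟩⟩, l4⟩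
  refine (l2 s hs).congr_fun fun v => ?_
  unfold factor
  rw [trace_eq]
  rfl

end

/-- **Main theorem.**  (1) The density theorem.  (2) For the ray class fields, the proportion of the
zeros away from the line.  (3) There are moduli with few classes of units, divisible by any given
ideal.  (4) The hypothesis on `E` holds for `y² = x³ - x` over every number field containing `i`. -/
theorem result : DensityTheorem ∧ ShareTheorem ∧
    (∀ (M : Type) [Field M] [NumberField M] (𝔪 : Ideal (𝓞 M)) (δ B : ℝ), 𝔪 ≠ ⊥ → 0 < δ →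
      ∃ 𝔮 : Ideal (𝓞 M), 𝔮 ≠ ⊥ ∧ 𝔪 ∣ 𝔮 ∧
        B ≤ (Ideal.absNorm 𝔮 : ℝ) ∧ (unitClasses 𝔮 : ℝ) ≤ (Ideal.absNorm 𝔮 : ℝ) ^ δ) ∧
    (∀ (M : Type) [Field M] [NumberField M] (ι₀ : GaussianInt →+* 𝓞 M),
      ∃ (n : (M →+* ℂ) → ℕ) (ψ : Ideal (𝓞 M) → ℂ),
        IsHeckeCharacter (-1) 0 n (Ideal.span {ι₀ ⟨2, 2⟩}) ψ) := by
  classical
  refine ⟨?_, ?_, fun M _ _ 𝔪 δ B hm hδ => Pool.Agent.N784.HC.exists_modM M hm δ B hδ, ?_⟩
  · intro M _ _ h c hh1 hc0 hc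
    obtain ⟨A, hA, H0⟩ := Pool.Agent.Helper92.CM.cm_dens_unif M h c hh1 hc0 hc
    refine ⟨A, hA, fun a b n 𝔪 ψ hψ 𝔮 hbot hle K _ _ ι art hK α β hpos => ?_⟩
    obtain ⟨G, g1, g2, g3, g4⟩ := H0 a b n 𝔪 ψ (isCM_of hψ) (fun φ => by
      have := hψ.type φ; omega) 𝔮 hbot hle K ι art (isAb_of hK)
    obtain ⟨L, l1, l2⟩ := back g1 hbot g2 hpos
    refine ⟨L, l1, fun T H hH hHT hX t₁ ht₁ δ hδ => ?_⟩
    obtain ⟨m1, m2⟩ := g4 T H hH hHT hX t₁ ht₁ δ hδ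
    have e1 : right t₁ H δ = Pool.Agent.Helper92.CM.vr t₁ H δ := rfl
    have e2 : away t₁ H δ = Pool.Agent.Helper92.CM.vv t₁ H δ := rfl
    refine ⟨?_, ?_, fun ht => ?_⟩
    · have h1 := (l2 {s : ℂ | 1 / 2 < s.re ∧ t₁ ≤ s.im ∧ s.im ≤ t₁ + H} (fun s hs => hs.1)).1
      have h2 : {s : ℂ | 1 / 2 < s.re ∧ t₁ ≤ s.im ∧ s.im ≤ t₁ + H ∧ L s = 0} =
          {s : ℂ | s ∈ {s : ℂ | 1 / 2 < s.re ∧ t₁ ≤ s.im ∧ s.im ≤ t₁ + H} ∧ L s = 0} := by
        ext s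
        simp only [Set.mem_ofPred_eq, and_assoc]
      rw [h2, h1]
      refine (Pool.Agent.Helper92.CM.win_finite g1 g3 t₁ H).subset ?_
      rintro s ⟨⟨h3, h4, h5⟩, h6⟩
      exact ⟨h3, h4, h5, h6⟩
    · rw [(l2 (right t₁ H δ) (fun s hs => by
        have := hs.1
        linarith)).2, e1]
      exact m1
    · rw [(l2 (away t₁ H δ) (fun s hs => hs.1)).2, e2]
      exact m2 ht
  · intro M _ _ h c hh1 hc0 hc
    obtain ⟨A, hA, H0⟩ := Pool.Agent.Helper92.CM.cm_share_unif M h c hh1 hc0 hc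
    refine ⟨A, hA, fun η hη => ?_⟩
    obtain ⟨δ₀, X₀, hδ₀, H0⟩ := H0 η hη
    refine ⟨δ₀, X₀, hδ₀, fun a b n 𝔪 ψ hψ 𝔮 hbot hle hX hU K _ _ ι art hK α β hpos => ?_⟩
    obtain ⟨G, g1, g2, g3⟩ := H0 a b n 𝔪 ψ (isCM_of hψ) (fun φ => by
      have := hψ.type φ; omega) 𝔮 hbot hle hX hU K ι art (isRCF_of hK)
    obtain ⟨L, l1, l2⟩ := back g1 hbot g2 hpos
    refine ⟨L, l1, fun T hT hTX δ hδ => ?_⟩
    have m1 := g3 T hT hTX δ hδ
    have e1 : dyadic T δ = Pool.Agent.Helper92.CM.vt T δ := by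
      ext s
      constructor
      · rintro ⟨a1, a2, a3, a4⟩
        exact ⟨⟨a1, a2, a3⟩, a4⟩
      · rintro ⟨⟨a1, a2, a3⟩, a4⟩
        exact ⟨a1, a2, a3, a4⟩
    have e2 : dyadic T 0 = Pool.Agent.N784.CZ.hp T := by
      ext s
      constructor
      · rintro ⟨a1, a2, a3, a4⟩
        exact ⟨a1, a2, a3⟩
      · rintro ⟨a1, a2, a3⟩
        exact ⟨a1, a2, a3, abs_nonneg _⟩
    rw [(l2 (dyadic T δ) (fun s hs => hs.1)).2, (l2 (dyadic T 0) (fun s hs => hs.1)).2, e1, e2]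
    exact m1
  · intro M _ _ ι₀
    obtain ⟨n, ψ, h1, h2, h3, h4, h5⟩ := Pool.Agent.Helper92.CM.ex_gauss M ι₀
    refine ⟨n, ψ, ⟨h1, h2, h3, h4, fun 𝔭 hp hp0 hc => ?_⟩⟩
    rw [trace_eq]
    exact h5 𝔭 hp hp0 hc

end Pool.Agent.Results.MP_fb225e_nt.AbelianExtensionsDensity
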