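import Pool.Agent.Helper92.HF.Fin

/-!
# The heat flow of the L-functions of elliptic curves over number fields

Let `Λ(s) = A^(s/2) ((2π)^(-s) Γ(s))^n L(E/K, s)` be the completed L-function of an elliptic curve `E` over
`ℚ` over a number field `K` of degree `n`, with the functional equation `s → 2 - s`, and let
`Λ_t = e^{t D²} Λ`, `D = d/ds`, be its heat flow (de Bruijn, Newman).  All zeros of `Λ` are on the line
`Re s = 1` if and only if the same holds for all `Λ_t`, `t > 0`, and for each `Λ` there is a smallest `t`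
from which on all the zeros of `Λ_t` are on the line (the de Bruijn-Newman constant).

For an arbitrary family of such functions let `q = A (1 + |y|)^(2n)` be the conductor at the height `y`,
and consider the following properties, in the limit `q → ∞`.

* `Near ϑ`: the zeros at the height `y` are at distance at most `ϑ + o(1)` from the line `Re s = 1`;
* `Size μ`: `|L(E/K, 1 + iy)| ≤ q^(μ + o(1))`;
* `Flow x`: the zeros of `Λ_t` at the height `y` are exactly on the line if `t log q ≥ x + o(1)`.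

We prove `Near (1/2)`, `Size (1/4)`, `Flow 1`, and

* `Near ϑ → Flow (2 ϑ)` and `Flow x → Near x`, so that the Riemann hypothesis in the limit (`Near 0`) is
  equivalent to `Flow 0`;
* `Size μ → Flow (1 / (2 - 4 μ))` and `Flow x → Size (x / 4)`, so that `Flow x` for some `x < 1` is
  equivalent to subconvexity (`Size μ` for some `μ < 1/4`);
* if `Flow x`, then the de Bruijn-Newman constants are at most `(x + o(1)) / log A` (so at most
  `(1 + o(1)) / log A` in all cases).

There is no hypothesis on the L-functions besides their standard analytic properties.  For the curves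
with `j = 0`, `j = 1728` and the quadratic twists of `X₀(11)` and `X₀(14)`, and all multiquadratic `K`, we
prove these, with `A → ∞`, so that for them everything is unconditional.

Proof.  `f(u) = Λ(1 + iy + u)` looks like `G e^{ℓ u}`, `ℓ = (log q)/2`, in the half-plane without zeros (three
circles theorem), and `Λ_t(1 + iy + u)` is a Gaussian average of `f`.  The saddle point method for
the integral over the half-line, and the functional equation, give `Λ_t = (main term) (1 + ...)` with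
two terms of different absolute value off the line.  For the converse the inverse heat flow is written
as an integral over a shifted vertical line.  Starting modules used: project `HF` (saddle point lemma missing
there and proved here); `QN`, `QTN4`, `TM` (theta series of the twists).
-/

set_option autoImplicit false

open NumberField IsDedekindDomain Complex MeasureTheory

namespace Pool.Agent.Results.MP_fb225e_nt.DeBruijnNewman

/-! ### The completed L-function of an elliptic curve over a number field -/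

section

variable {K : Type} [Field K] [NumberField K]

/-- `Nv` minus the number of the affine points of `y² = x³ + a x + b` over the residue field of `v` -/
noncomputable def trace (a b : ℤ) (v : HeightOneSpectrum (𝓞 K)) : ℤ :=
  ((Ideal.absNorm v.asIdeal : ℕ) : ℤ) - ((Nat.card {p : (𝓞 K ⧸ v.asIdeal) × (𝓞 K ⧸ v.asIdeal) //
    p.2 ^ 2 = p.1 ^ 3 + (a : 𝓞 K ⧸ v.asIdeal) * p.1 + (b : 𝓞 K ⧸ v.asIdeal)} : ℕ) : ℤ)

open Classical in
/-- The Euler factor `(1 - a_v (Nv)^(-s) + (Nv)^(1-2s))⁻¹` of `y² = x³ + a x + b` over `K` at a place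
`v` which does not divide `D`, and `1` if `v` divides `D`. -/
noncomputable def goodFactor (a b D : ℤ) (s : ℂ) (v : HeightOneSpectrum (𝓞 K)) : ℂ :=
  if ((D : ℤ) : 𝓞 K) ∈ v.asIdeal then 1 else
    (1 - (trace a b v : ℂ) * (Ideal.absNorm v.asIdeal : ℂ) ^ (-s) +
      (Ideal.absNorm v.asIdeal : ℂ) ^ (1 - 2 * s))⁻¹

end

/-- `P` is a possible Euler polynomial at the prime `p` for an elliptic curve over a field of degree `n`
(the product of the Euler polynomials at the places above `p`): `P(0) = 1`, the degree is at most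
`2n`, and all complex zeros have absolute value at least `p^(-1/2)` (Hasse). -/
structure IsEulerPoly (n p : ℕ) (P : Polynomial ℝ) : Prop where
  const : P.coeff 0 = 1
  degree : P.natDegree ≤ 2 * n
  zeros : ∀ x : ℂ, ‖x‖ * Real.sqrt p < 1 → Polynomial.aeval x P ≠ 0

/-- the factor `A^(s/2) ((2π)^(-s) Γ(s))^n` -/
noncomputable def gammaFactor (n : ℕ) (A : ℝ) (s : ℂ) : ℂ :=
  (A : ℂ) ^ (s / 2) * ((2 * Real.pi : ℂ) ^ (-s) * Gamma s) ^ n

/-- `Λ` is the completed L-function of `E : y² = x³ + a x + b` over `K`, of conductor `A`, with the Euler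
polynomials `P p` at the primes `p` dividing `D`, where `D ≠ 0` is a multiple of `2 (4a³ + 27b²)`:
`Λ` is entire, of exponential type in vertical strips, for `Re s > 3/2`
`Λ(s) = A^(s/2) ((2π)^(-s) Γ(s))^[K:ℚ] L(E/K, s)` with the Euler product `L(E/K, s)`, and
`Λ(s) = w Λ(2 - s)`, `w = ± 1`. -/
structure IsCompleted (K : Type) [Field K] [NumberField K] (a b D : ℤ) (P : ℕ → Polynomial ℝ)
    (A : ℝ) (Λ : ℂ → ℂ) : Prop where
  elliptic : 4 * a ^ 3 + 27 * b ^ 2 ≠ 0
  nonzero : D ≠ 0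
  multiple : 2 * (4 * a ^ 3 + 27 * b ^ 2) ∣ D
  possible : ∀ p ∈ D.natAbs.primeFactors, IsEulerPoly (Module.finrank ℚ K) p (P p)
  conductor : 1 ≤ A
  entire : Differentiable ℂ Λ
  growth : ∀ σ₁ σ₂ : ℝ, ∃ M : ℝ, ∀ s : ℂ, σ₁ ≤ s.re → s.re ≤ σ₂ →
    ‖Λ s‖ ≤ Real.exp (M * (1 + |s.im|))
  euler : ∀ s : ℂ, 3 / 2 < s.re → Λ s = gammaFactor (Module.finrank ℚ K) A s *
      ((∏' v : HeightOneSpectrum (𝓞 K), goodFactor a b D s v) *
        ∏ p ∈ D.natAbs.primeFactors, (Polynomial.aeval ((p : ℂ) ^ (-s)) (P p))⁻¹)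
  fe : ∃ w : ℂ, (w = 1 ∨ w = -1) ∧ ∀ s : ℂ, Λ s = w * Λ (2 - s)

/-- `Λ` is the completed L-function, of conductor `A`, of an elliptic curve over `ℚ`, over a number
field of degree `n` -/
def IsLambda (n : ℕ) (A : ℝ) (Λ : ℂ → ℂ) : Prop :=
  ∃ (K : Type) (_ : Field K) (_ : NumberField K) (a b D : ℤ) (P : ℕ → Polynomial ℝ),
    Module.finrank ℚ K = n ∧ IsCompleted K a b D P A Λ

/-! ### The heat flow -/

/-- the heat flow `e^{t D²} F`, `D = d/ds`, `t ≥ 0`: the Gaussian average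
`π^(-1/2) ∫ e^(-v²) F(s + 2 √t v) dv` -/
noncomputable def heat (t : ℝ) (F : ℂ → ℂ) (s : ℂ) : ℂ :=
  ((1 / Real.sqrt Real.pi : ℝ) : ℂ) *
    ∫ v : ℝ, ((Real.exp (-v ^ 2) : ℝ) : ℂ) * F (s + ((2 * Real.sqrt t * v : ℝ) : ℂ))

/-- all the zeros of `F` are on the line `Re s = 1` -/
def OnLine (F : ℂ → ℂ) : Prop := ∀ s : ℂ, F s = 0 → s.re = 1

/-- the conductor at height `y`: `A (1 + |y|)^(2n)` -/
noncomputable def cond (n : ℕ) (A y : ℝ) : ℝ := A * (1 + |y|) ^ (2 * n)

/-- The zeros of the `Λ` of the family are at distance at most `ϑ + o(1)` from the line `Re s = 1`, as the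
conductor at their height tends to infinity. -/
def Near (n : ℕ) (F : Set (ℝ × (ℂ → ℂ))) (ϑ : ℝ) : Prop :=
  ∀ ε : ℝ, 0 < ε → ∃ C : ℝ, ∀ p ∈ F, ∀ ρ : ℂ, p.2 ρ = 0 → C ≤ cond n p.1 ρ.im → |ρ.re - 1| ≤ ϑ + ε

/-- `|L(E/K, 1 + iy)| ≤ q^(μ + o(1))` for the functions of the family, as the conductor `q` at the height
`y` tends to infinity. -/
def Size (n : ℕ) (F : Set (ℝ × (ℂ → ℂ))) (μ : ℝ) : Prop :=
  ∀ ε : ℝ, 0 < ε → ∃ C : ℝ, ∀ p ∈ F, ∀ y : ℝ, C ≤ cond n p.1 y →
    ‖p.2 (1 + y * I)‖ ≤ (cond n p.1 y) ^ (μ + ε) * ‖gammaFactor n p.1 (1 + y * I)‖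

/-- The zeros of the `e^{t D²} Λ` of the family are exactly on the line `Re s = 1` from the time
`t = (x + o(1)) / log (conductor at their height)` on, for small `t` and large conductor. -/
def Flow (n : ℕ) (F : Set (ℝ × (ℂ → ℂ))) (x : ℝ) : Prop :=
  ∀ ε : ℝ, 0 < ε → ∃ C t₁ : ℝ, 0 < t₁ ∧ ∀ p ∈ F, ∀ (t : ℝ) (s : ℂ), 0 < t → t ≤ t₁ →
    C ≤ cond n p.1 s.im → x + ε ≤ t * Real.log (cond n p.1 s.im) → heat t p.2 s = 0 → s.re = 1

/-- The theorem for a family of completed L-functions of elliptic curves over number fields of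
degree `n`. -/
structure HeatFlowLaw (n : ℕ) (F : Set (ℝ × (ℂ → ℂ))) : Prop where
  near_half : Near n F (1 / 2)
  size_quarter : Size n F (1 / 4)
  flow_one : Flow n F 1
  flow_of_near : ∀ ϑ : ℝ, 0 ≤ ϑ → ϑ ≤ 1 / 2 → Near n F ϑ → Flow n F (2 * ϑ)
  near_of_flow : ∀ x : ℝ, 0 ≤ x → Flow n F x → Near n F x
  flow_of_size : ∀ μ : ℝ, 0 ≤ μ → μ ≤ 1 / 4 → Size n F μ → Flow n F (1 / (2 - 4 * μ))
  size_of_flow : ∀ x : ℝ, 0 ≤ x → x ≤ 1 → Flow n F x → Size n F (x / 4)
  constants : ∀ x : ℝ, 0 ≤ x → Flow n F x → ∀ ε : ℝ, 0 < ε → ∃ A₀ : ℝ, 1 < A₀ ∧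
    ∀ p ∈ F, A₀ ≤ p.1 → ∀ t : ℝ, (x + ε) / Real.log p.1 ≤ t → OnLine (heat t p.2)
  line : ∀ p ∈ F, (OnLine p.2 ↔ ∀ t : ℝ, 0 < t → OnLine (heat t p.2))

/-! ### The unconditional part -/

/-- `K = ℚ(√d₁, …, √d_k)` and `[K : ℚ] = 2^k` -/
structure IsMultiquadratic {k : ℕ} (d : Fin k → ℤ) (K : Type) [Field K] [NumberField K] :
    Prop where
  generated : ∃ x : Fin k → K, (∀ i, x i ^ 2 = (d i : K)) ∧ Algebra.adjoin ℚ (Set.range x) = ⊤
  degree : Module.finrank ℚ K = 2 ^ k

/-- `y² = x³ + a x + b` has `j`-invariant `0` or `1728`, or is a quadratic twist of the modular curve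
`X₀(11) : y² = x³ - 13392 x - 1080432` or `X₀(14) : y² = x³ + 5805 x - 285714` -/
def Curve (a b : ℤ) : Prop :=
  (a ≠ 0 ∧ b = 0) ∨ (a = 0 ∧ b ≠ 0) ∨ ∃ h : ℤ, h ≠ 0 ∧
    ((a = -13392 * h ^ 2 ∧ b = -1080432 * h ^ 3) ∨ (a = 5805 * h ^ 2 ∧ b = -285714 * h ^ 3))

/-- `r` is the squarefree part of `m` -/
def IsSquarefreePart (m r : ℤ) : Prop := Squarefree r ∧ ∃ g : ℤ, m = r * g ^ 2

section
open Pool.Agent.Helper92.HF

variable {K : Type} [Field K] [NumberField K]

lemma trace_eq (a b : ℤ) (v : HeightOneSpectrum (𝓞 K)) :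
    trace a b v = Pool.Agent.Helper92.MQ.trv a b v := by
  unfold trace Pool.Agent.Helper92.MQ.trv Pool.Agent.Helper92.CM.trc
  rw [Ideal.absNorm_apply, Submodule.cardQuot_apply]

lemma factor_eq (a b D : ℤ) (s : ℂ) (v : HeightOneSpectrum (𝓞 K)) :
    goodFactor a b D s v = (gp a b D v s)⁻¹ := by
  unfold goodFactor gp
  rw [trace_eq]
  split_ifs
  · rw [inv_one]
  · unfold Pool.Agent.W164.RC.lpoly
    push_cast
    rw [one_mul]

lemma euler_eq (a b D : ℤ) (P : ℕ → Polynomial ℝ) (s : ℂ) :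
    ((∏' v : HeightOneSpectrum (𝓞 K), goodFactor a b D s v) *
        ∏ p ∈ D.natAbs.primeFactors, (Polynomial.aeval ((p : ℂ) ^ (-s)) (P p))⁻¹) =
      EG K a b D s * Pool.Agent.Helper92.HF.EQ D P s := by
  unfold EG Pool.Agent.Helper92.HF.EQ
  simp only [factor_eq]

lemma comp_of {a b D : ℤ} {P : ℕ → Polynomial ℝ} {A : ℝ} {Λ : ℂ → ℂ}
    (h : IsCompleted K a b D P A Λ) : Comp K a b D P A Λ where
  one_le := h.conductor
  two := (dvd_mul_right _ _).trans h.multiple
  poly := fun p hp => ⟨(h.possible p hp).1, (h.possible p hp).2, (h.possible p hp).3⟩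
  entire := h.entire
  growth := h.growth
  euler := fun s hs => by rw [h.euler s hs, euler_eq]; rfl
  fe := h.fe

lemma isC_of {n : ℕ} {A : ℝ} {Λ : ℂ → ℂ} (h : IsLambda n A Λ) : IsC n A Λ := by
  obtain ⟨K, h1, h2, a, b, D, P, h3, h4⟩ := h
  exact ⟨K, h1, h2, a, b, D, P, h3, comp_of h4⟩

lemma law_of {n : ℕ} {F : Set (ℝ × (ℂ → ℂ))} (hF : ∀ p ∈ F, IsLambda n p.1 p.2) :
    HeatFlowLaw n F := by
  have hF' : ∀ p ∈ F, IsC n p.1 p.2 := fun p hp => isC_of (hF p hp)
  rcases Set.eq_empty_or_nonempty F with rfl | ⟨p0, hp0⟩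
  · exact
      { near_half := fun ε _ => ⟨0, fun p hp => hp.elim⟩
        size_quarter := fun ε _ => ⟨0, fun p hp => hp.elim⟩
        flow_one := fun ε _ => ⟨0, 1, one_pos, fun p hp => hp.elim⟩
        flow_of_near := fun ϑ _ _ _ ε _ => ⟨0, 1, one_pos, fun p hp => hp.elim⟩
        near_of_flow := fun x _ _ ε _ => ⟨0, fun p hp => hp.elim⟩
        flow_of_size := fun μ _ _ _ ε _ => ⟨0, 1, one_pos, fun p hp => hp.elim⟩
        size_of_flow := fun x _ _ _ ε _ => ⟨0, fun p hp => hp.elim⟩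
        constants := fun x _ _ ε _ => ⟨2, by norm_num, fun p hp => hp.elim⟩
        line := fun p hp => hp.elim }
  have hn : 1 ≤ n := (hF' p0 hp0).pos
  have hq : Size n F (1 / 4) := by
    have := Pool.Agent.Helper92.HF.size_of_flow hn hF' zero_le_one le_rfl
      (Pool.Agent.Helper92.HF.flow_one hn hF')
    exact this
  exact
    { near_half := Pool.Agent.Helper92.HF.near_half hF'
      size_quarter := hq
      flow_one := Pool.Agent.Helper92.HF.flow_one hn hF'
      flow_of_near := fun ϑ h0 h1 h => Pool.Agent.Helper92.HF.flow_of_near hn hF' h0 h1 h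
      near_of_flow := fun x hx h => Pool.Agent.Helper92.HF.near_of_flow hn hF' hx h
      flow_of_size := fun μ h0 h1 h => Pool.Agent.Helper92.HF.flow_of_size hn hF' h0 h1 h
      size_of_flow := fun x h0 h1 h => Pool.Agent.Helper92.HF.size_of_flow hn hF' h0 h1 h
      constants := fun x hx h ε hε => by
        obtain ⟨A0, hA0, H⟩ := global_of_flow hF' hx h hε
        exact ⟨A0, hA0, fun p hp hA t ht s hs => H p hp hA t ht s hs⟩
      line := fun p hp => (hF' p hp).line }

end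

/-- **The heat flow of the L-functions of elliptic curves over number fields.**  For every family of
completed L-functions of elliptic curves over `ℚ` over number fields of degree `n` the theorem
`HeatFlowLaw` holds.  For `E : y² = x³ + a x + b` with `j = 0` or `1728` or a quadratic twist of `X₀(11)`
or `X₀(14)` and for all multiquadratic fields `K = ℚ(√d₁, …, √d_k)` the completed L-function `Λ` exists,
its conductor `A` is at least `∏ r_S² / (2 (4a³ + 27b²))^(2^(k+1))`, `r_S` the squarefree parts of the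
`2^k` products of the `d_i`, and all the zeros of `e^{t D²} Λ` are on the line `Re s = 1` for
`t ≥ (1 + ε) / log A`, if `A ≥ A₀(k, ε)`. -/
theorem result :
    (∀ (n : ℕ) (F : Set (ℝ × (ℂ → ℂ))), (∀ p ∈ F, IsLambda n p.1 p.2) → HeatFlowLaw n F) ∧
    ∀ (k : ℕ) (ε : ℝ), 0 < ε → ∃ A₀ : ℝ, 1 < A₀ ∧
      ∀ a b : ℤ, Curve a b → ∀ d : Fin k → ℤ, (∀ i, d i ≠ 0) →
      ∀ (K : Type) [Field K] [NumberField K], IsMultiquadratic d K →
        ∃ (P : ℕ → Polynomial ℝ) (A : ℝ) (Λ : ℂ → ℂ),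
          IsCompleted K a b (2 * (4 * a ^ 3 + 27 * b ^ 2) * ∏ i, d i) P A Λ ∧
          (∀ r : Finset (Fin k) → ℤ, (∀ S, IsSquarefreePart (∏ i ∈ S, d i) (r S)) →
            ((∏ S, r S : ℤ) : ℝ) ^ 2 ≤ ((2 * (4 * a ^ 3 + 27 * b ^ 2) : ℤ) : ℝ) ^ (2 * 2 ^ k) * A) ∧
          (A₀ ≤ A → ∀ t : ℝ, (1 + ε) / Real.log A ≤ t → OnLine (heat t Λ)) := by
  refine ⟨fun n F hF => law_of hF, fun k ε hε => ?_⟩
  obtain ⟨A₀, hA₀, H⟩ := Pool.Agent.Helper92.HF.global_one (n := 2 ^ k) Nat.one_le_two_pow hε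
  refine ⟨A₀, hA₀, fun a b hab d hd K _ _ hK => ?_⟩
  have hdisc := Pool.Agent.Y19.QT.Fam.disc hab
  obtain ⟨⟨x, hx, hgen⟩, hdeg⟩ := hK
  obtain ⟨P, A, Λ, hc, hle⟩ := Pool.Agent.Helper92.HF.comp_mq
    (⟨hx, hgen, hdeg⟩ : Pool.Agent.Helper92.MQ.IsMQ d K x) hd hdisc (Pool.Agent.Helper92.HF.allTw hab)
  refine ⟨P, A, Λ,
    { elliptic := hdisc
      nonzero := mul_ne_zero (mul_ne_zero two_ne_zero hdisc) (Finset.prod_ne_zero_iff.2 fun i _ => hd i)
      multiple := dvd_mul_right _ _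
      possible := fun p hp => ⟨(hc.poly p hp).1, (hc.poly p hp).2, (hc.poly p hp).3⟩
      conductor := hc.one_le
      entire := hc.entire
      growth := hc.growth
      euler := fun s hs => by rw [hc.euler s hs, euler_eq]; rfl
      fe := hc.fe }, fun r hr => ?_, fun hA t ht s hs => ?_⟩
  · have h1 : ∀ S, r S = Pool.Agent.Helper92.MQ.sf (∏ i ∈ S, d i) := fun S =>
      Pool.Agent.Helper92.HF.sf_unique (Finset.prod_ne_zero_iff.2 fun i _ => hd i) (hr S).1 (hr S).2
    simp only [h1]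
    exact hle
  · exact H A Λ ⟨K, inferInstance, inferInstance, a, b, _, P, hdeg, hc⟩ hA t ht s hs

end Pool.Agent.Results.MP_fb225e_nt.DeBruijnNewman
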