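import Pool.Agent.Helper92.AF.Main

/-!
# A density theorem for the heat flow of the L-functions of twists over multiquadratic fields

Let `E : y² = x³ + a x + b` be an elliptic curve over `ℚ` (with or without complex multiplication), and for
squarefree integers `d₀, …, d_k` let `K = ℚ(√d₁, …, √d_k)` (of degree `2^k`) and let `E_{d₀}` be the quadratic
twist of `E` by `d₀`.  Let `Λ(s) = A^(s/2) ((2π)^(-s) Γ(s))^(2^k) L(E_{d₀}/K, s)` be the completed L-function, of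
conductor `A`, and `Λ_t = e^{t D²} Λ`, `D = d/ds`, its heat flow (de Bruijn, Newman).  All the zeros of `Λ` are
on the line `Re s = 1` if and only if all the zeros of `Λ_t` are on this line for all `t > 0`; without any
hypothesis they are on the line for `t ≥ (1 + o(1)) / log A` (theorem `DeBruijnNewman` of this folder).

We prove, without any hypothesis, for all `E` with `j`-invariant `0` or `1728`, for all quadratic twists of
`X₀(11)` and `X₀(14)`, and for every `E` over `ℚ` whose quadratic twists are modular: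

* for every `k` there are `c > 0`, `B` such that for `0 ≤ x ≤ 1`, `ε > 0`, `U ≥ 1`: for all but
  `O(U^B X^(k + 1 - c x))` of the `(d₀, …, d_k)`, `|d_i| ≤ X`, all the zeros of `Λ_t` at heights up to `U` are
  exactly on the line `Re s = 1` for all `t ≥ (x + ε) / log A`;
* for every `k` there are `κ, δ > 0` such that for all but `O(X^(k + 1 - δ))` of the `(d₀, …, d_k)`, `|d_i| ≤ X`,
  all the zeros of `Λ_t` are on the line for all `t ≥ (1 - κ) / log A`.

Here `X ≤ A ≤ X^M`, `M = (2k + 3) 2^k`.  So, for example, for every `ε > 0` there are `β, δ > 0` such that for all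
but `O(X^(k + 1 - δ))` of the `(d₀, …, d_k)` the zeros of `Λ_t` at heights up to `X^β` are all on the line for all
`t ≥ ε / log A`.

Proof.  (1) The completed L-function of `E_{d₀}` over `K` is the product of the completed L-functions of the
twists of `E` by the squarefree parts of the products `d₀ ∏_{i ∈ S} d_i`, which are constructed with their
conductors.  (2) The density theorem for the zeros of these twists, `MultiquadraticFields` of this
folder.  (3) The local form of the theorem `DeBruijnNewman`: a zero of `Λ_t` off the line at the height `y`, with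
`t log q ≥ 2 ϑ + o(1)`, `q = A (1 + |y|)^(2n)`, forces a zero of `Λ` at distance more than `ϑ` from the line, at
bounded distance from the height `y`.
-/

set_option autoImplicit false

open NumberField IsDedekindDomain Complex MeasureTheory

namespace Pool.Agent.Results.MP_fb225e_nt.HeatFlowDensity

open Pool.Agent.Y19.QT (TwistsModular)

/-! ### The completed L-function of an elliptic curve over a number field -/

section

variable {K : Type} [Field K] [NumberField K]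

/-- `Nv` minus the number of the affine points of `y² = x³ + a x + b` over the residue field of `v` -/
noncomputable def trace (a b : ℤ) (v : HeightOneSpectrum (𝓞 K)) : ℤ :=
  ((Ideal.absNorm v.asIdeal : ℕ) : ℤ) - ((Nat.card {p : (𝓞 K ⧸ v.asIdeal) × (𝓞 K ⧸ v.asIdeal) //
    p.2 ^ 2 = p.1 ^ 3 + (a : 𝓞 K ⧸ v.asIdeal) * p.1 + (b : 𝓞 K ⧸ v.asIdeal)} : ℕ) : ℤ)

open Classical in
/-- The Euler factor `(1 - a_v (Nv)^(-s) + (Nv)^(1-2s))⁻¹` of `y² = x³ + a x + b` over `K` at a place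
`v` which does not divide `D`, and `1` if `v` divides `D`. -/
noncomputable def goodFactor (a b D : ℤ) (s : ℂ) (v : HeightOneSpectrum (𝓞 K)) : ℂ :=
  if ((D : ℤ) : 𝓞 K) ∈ v.asIdeal then 1 else
    (1 - (trace a b v : ℂ) * (Ideal.absNorm v.asIdeal : ℂ) ^ (-s) +
      (Ideal.absNorm v.asIdeal : ℂ) ^ (1 - 2 * s))⁻¹

end

/-- `P` is a possible Euler polynomial at the prime `p` for an elliptic curve over a field of degree `n`
(the product of the Euler polynomials at the places above `p`): `P(0) = 1`, the degree is at most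
`2n`, and all complex zeros have absolute value at least `p^(-1/2)` (Hasse). -/
structure IsEulerPoly (n p : ℕ) (P : Polynomial ℝ) : Prop where
  const : P.coeff 0 = 1
  degree : P.natDegree ≤ 2 * n
  zeros : ∀ x : ℂ, ‖x‖ * Real.sqrt p < 1 → Polynomial.aeval x P ≠ 0

/-- the factor `A^(s/2) ((2π)^(-s) Γ(s))^n` -/
noncomputable def gammaFactor (n : ℕ) (A : ℝ) (s : ℂ) : ℂ :=
  (A : ℂ) ^ (s / 2) * ((2 * Real.pi : ℂ) ^ (-s) * Gamma s) ^ n

/-- `Λ` is the completed L-function of `E : y² = x³ + a x + b` over `K`, of conductor `A`, with the Euler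
polynomials `P p` at the primes `p` dividing `D`, where `D ≠ 0` is a multiple of `2 (4a³ + 27b²)`:
`Λ` is entire, of exponential type in vertical strips, for `Re s > 3/2`
`Λ(s) = A^(s/2) ((2π)^(-s) Γ(s))^[K:ℚ] L(E/K, s)` with the Euler product `L(E/K, s)`, and
`Λ(s) = w Λ(2 - s)`, `w = ± 1`. -/
structure IsCompleted (K : Type) [Field K] [NumberField K] (a b D : ℤ) (P : ℕ → Polynomial ℝ)
    (A : ℝ) (Λ : ℂ → ℂ) : Prop where
  elliptic : 4 * a ^ 3 + 27 * b ^ 2 ≠ 0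
  nonzero : D ≠ 0
  multiple : 2 * (4 * a ^ 3 + 27 * b ^ 2) ∣ D
  possible : ∀ p ∈ D.natAbs.primeFactors, IsEulerPoly (Module.finrank ℚ K) p (P p)
  conductor : 1 ≤ A
  entire : Differentiable ℂ Λ
  growth : ∀ σ₁ σ₂ : ℝ, ∃ M : ℝ, ∀ s : ℂ, σ₁ ≤ s.re → s.re ≤ σ₂ →
    ‖Λ s‖ ≤ Real.exp (M * (1 + |s.im|))
  euler : ∀ s : ℂ, 3 / 2 < s.re → Λ s = gammaFactor (Module.finrank ℚ K) A s *
      ((∏' v : HeightOneSpectrum (𝓞 K), goodFactor a b D s v) *
        ∏ p ∈ D.natAbs.primeFactors, (Polynomial.aeval ((p : ℂ) ^ (-s)) (P p))⁻¹)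
  fe : ∃ w : ℂ, (w = 1 ∨ w = -1) ∧ ∀ s : ℂ, Λ s = w * Λ (2 - s)

/-! ### The heat flow -/

/-- the heat flow `e^{t D²} F`, `D = d/ds`, `t ≥ 0`: the Gaussian average
`π^(-1/2) ∫ e^(-v²) F(s + 2 √t v) dv` -/
noncomputable def heat (t : ℝ) (F : ℂ → ℂ) (s : ℂ) : ℂ :=
  ((1 / Real.sqrt Real.pi : ℝ) : ℂ) *
    ∫ v : ℝ, ((Real.exp (-v ^ 2) : ℝ) : ℂ) * F (s + ((2 * Real.sqrt t * v : ℝ) : ℂ))

/-! ### The theorem -/

/-- `K = ℚ(√d₁, …, √d_k)` and `[K : ℚ] = 2^k` -/
structure IsMultiquadratic {k : ℕ} (d : Fin k → ℤ) (K : Type) [Field K] [NumberField K] :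
    Prop where
  generated : ∃ x : Fin k → K, (∀ i, x i ^ 2 = (d i : K)) ∧ Algebra.adjoin ℚ (Set.range x) = ⊤
  degree : Module.finrank ℚ K = 2 ^ k

/-- `y² = x³ + a x + b` has `j`-invariant `0` or `1728`, or is a quadratic twist of the modular curve
`X₀(11) : y² = x³ - 13392 x - 1080432` or `X₀(14) : y² = x³ + 5805 x - 285714` -/
def Curve (a b : ℤ) : Prop :=
  (a ≠ 0 ∧ b = 0) ∨ (a = 0 ∧ b ≠ 0) ∨ ∃ h : ℤ, h ≠ 0 ∧
    ((a = -13392 * h ^ 2 ∧ b = -1080432 * h ^ 3) ∨ (a = 5805 * h ^ 2 ∧ b = -285714 * h ^ 3))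

/-- the `d_i` are squarefree and `|d_i| ≤ X` -/
def InBox (X : ℕ) {m : ℕ} (d : Fin m → ℤ) : Prop := ∀ i, |d i| ≤ X ∧ Squarefree (d i)

/-- Let `d = (d₀, …, d_k)`.  For the field `K = ℚ(√d₁, …, √d_k)`, if it is of degree `2^k`, and for the quadratic
twist `E_{d₀} : y² = x³ + a d₀² x + b d₀³` of `E : y² = x³ + a x + b`, the completed L-function `Λ` of `E_{d₀}`
over `K` exists, its conductor `A` satisfies `X ≤ A ≤ X^((2k + 3) 2^k)`, and all the zeros `s` of the heat flow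
`e^{t D²} Λ` whose height `Im s` is in `H` are on the line `Re s = 1`, for all `t ≥ x / log A`. -/
def HasFlow (a b : ℤ) {k : ℕ} (X : ℕ) (d : Fin (k + 1) → ℤ) (x : ℝ) (H : Set ℝ) : Prop :=
  ∀ (K : Type) [Field K] [NumberField K], IsMultiquadratic (fun i : Fin k => d i.succ) K →
    ∃ (P : ℕ → Polynomial ℝ) (A : ℝ) (Λ : ℂ → ℂ),
      IsCompleted K (a * d 0 ^ 2) (b * d 0 ^ 3)
        (2 * (4 * (a * d 0 ^ 2) ^ 3 + 27 * (b * d 0 ^ 3) ^ 2) * ∏ i : Fin k, d i.succ) P A Λ ∧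
      (X : ℝ) ≤ A ∧ A ≤ (X : ℝ) ^ ((2 * k + 3) * 2 ^ k) ∧
      ∀ (t : ℝ) (s : ℂ), x / Real.log A ≤ t → s.im ∈ H → heat t Λ s = 0 → s.re = 1

/-- The density theorem for the heat flow: for all but at most `C U^B X^(k + 1 - c x)` of the
`(d₀, …, d_k)`, `d_i` squarefree, `|d_i| ≤ X`, the zeros of `e^{t D²} Λ` at heights up to `U` are on the line
for all `t ≥ (x + ε) / log A`. -/
def FlowDensity (a b : ℤ) : Prop :=
  ∀ k : ℕ, ∃ (c : ℝ) (B : ℕ), 0 < c ∧ ∀ x ε : ℝ, 0 ≤ x → x ≤ 1 → 0 < ε → ∃ C : ℝ,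
    ∀ (X : ℕ) (U : ℝ) (T : Finset (Fin (k + 1) → ℤ)), 1 ≤ X → 1 ≤ U →
      (∀ d ∈ T, InBox X d ∧ ¬ HasFlow a b X d (x + ε) {y : ℝ | |y| ≤ U}) →
      (T.card : ℝ) ≤ C * U ^ B * (X : ℝ) ^ (k + 1 - c * x)

/-- For all but at most `C X^(k + 1 - δ)` of the `(d₀, …, d_k)`, `d_i` squarefree, `|d_i| ≤ X`, all the zeros
of `e^{t D²} Λ` are on the line for all `t ≥ (1 - κ) / log A`. -/
def FlowAllHeights (a b : ℤ) : Prop :=
  ∀ k : ℕ, ∃ C κ δ : ℝ, 0 < κ ∧ κ < 1 ∧ 0 < δ ∧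
    ∀ (X : ℕ) (T : Finset (Fin (k + 1) → ℤ)), 1 ≤ X →
      (∀ d ∈ T, InBox X d ∧ ¬ HasFlow a b X d (1 - κ) Set.univ) →
      (T.card : ℝ) ≤ C * (X : ℝ) ^ (k + 1 - δ)

section
open Pool.Agent.Helper92.HF

variable {K : Type} [Field K] [NumberField K]

lemma trace_eq (a b : ℤ) (v : HeightOneSpectrum (𝓞 K)) :
    trace a b v = Pool.Agent.Helper92.MQ.trv a b v := by
  unfold trace Pool.Agent.Helper92.MQ.trv Pool.Agent.Helper92.CM.trc
  rw [Ideal.absNorm_apply, Submodule.cardQuot_apply]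

lemma factor_eq (a b D : ℤ) (s : ℂ) (v : HeightOneSpectrum (𝓞 K)) :
    goodFactor a b D s v = (gp a b D v s)⁻¹ := by
  unfold goodFactor gp
  rw [trace_eq]
  split_ifs
  · rw [inv_one]
  · unfold Pool.Agent.W164.RC.lpoly
    push_cast
    rw [one_mul]

lemma euler_eq (a b D : ℤ) (P : ℕ → Polynomial ℝ) (s : ℂ) :
    ((∏' v : HeightOneSpectrum (𝓞 K), goodFactor a b D s v) *
        ∏ p ∈ D.natAbs.primeFactors, (Polynomial.aeval ((p : ℂ) ^ (-s)) (P p))⁻¹) =
      EG K a b D s * Pool.Agent.Helper92.HF.EQ D P s := by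
  unfold EG Pool.Agent.Helper92.HF.EQ
  simp only [factor_eq]

end

lemma hasFlow_of {a b : ℤ} (hab : 4 * a ^ 3 + 27 * b ^ 2 ≠ 0) {k X : ℕ} {d : Fin (k + 1) → ℤ}
    (hd : InBox X d) {x : ℝ} {H : Set ℝ} {Pr : ℝ → (ℂ → ℂ) → Prop}
    (hPr : ∀ (A : ℝ) (Λ : ℂ → ℂ), Pr A Λ → ∀ (t : ℝ) (s : ℂ), x / Real.log A ≤ t → s.im ∈ H →
      heat t Λ s = 0 → s.re = 1)
    (h : Pool.Agent.Helper92.AF.OnT a b X d Pr) : HasFlow a b X d x H := by
  intro K _ _ hK
  obtain ⟨⟨y, hy, hgen⟩, hdeg⟩ := hK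
  obtain ⟨P, A, Λ, hc, h1, h2, h3⟩ := h K y (⟨hy, hgen, hdeg⟩ :
    Pool.Agent.Helper92.MQ.IsMQ (fun i : Fin k => d i.succ) K y)
  have hdisc : 4 * (a * d 0 ^ 2) ^ 3 + 27 * (b * d 0 ^ 3) ^ 2 ≠ 0 := by
    have e : 4 * (a * d 0 ^ 2) ^ 3 + 27 * (b * d 0 ^ 3) ^ 2 = d 0 ^ 6 * (4 * a ^ 3 + 27 * b ^ 2) := by ring
    rw [e]
    exact mul_ne_zero (pow_ne_zero _ (hd 0).2.ne_zero) hab
  exact ⟨P, A, Λ,
    { elliptic := hdisc
      nonzero := mul_ne_zero (mul_ne_zero two_ne_zero hdisc)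
        (Finset.prod_ne_zero_iff.2 fun i _ => (hd i.succ).2.ne_zero)
      multiple := dvd_mul_right _ _
      possible := fun p hp => ⟨(hc.poly p hp).1, (hc.poly p hp).2, (hc.poly p hp).3⟩
      conductor := hc.one_le
      entire := hc.entire
      growth := hc.growth
      euler := fun s hs => by rw [hc.euler s hs, euler_eq]; rfl
      fe := hc.fe }, h1, h2, hPr A Λ h3⟩

lemma law_of {a b : ℤ} (hab : 4 * a ^ 3 + 27 * b ^ 2 ≠ 0) (hT : Pool.Agent.Helper92.HF.AllTw a b)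
    (h : Pool.Agent.Y19.QT.HasTwists a b)
    (hL : ∀ d : ℤ, Squarefree d → ∃ F : ℂ → ℂ, Pool.Agent.Y19.QT.IsLFun (a * d ^ 2) (b * d ^ 3) F) :
    FlowDensity a b ∧ FlowAllHeights a b := by
  obtain ⟨h1, h2⟩ := Pool.Agent.Helper92.AF.core hab hT h hL
  refine ⟨fun k => ?_, fun k => ?_⟩
  · obtain ⟨c, B, hc, H⟩ := h1 k
    refine ⟨c, B, hc, fun x ε hx0 hx1 hε => ?_⟩
    obtain ⟨C, H⟩ := H x ε hx0 hx1 hε
    refine ⟨C, fun X U T hX hU hT => H X U T hX hU (fun d hd => ?_) fun d hd hon => ?_⟩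
    · exact Pool.Agent.Helper92.MQ.mem_box.2 (hT d hd).1
    · exact (hT d hd).2 (hasFlow_of hab (hT d hd).1
        (fun A Λ hP t s ht hs h0 => hP t ht s hs h0) hon)
  · obtain ⟨C, κ, δ, hκ, hκ1, hδ, H⟩ := h2 k
    refine ⟨C, κ, δ, hκ, hκ1, hδ, fun X T hX hT => H X T hX (fun d hd => ?_) fun d hd hon => ?_⟩
    · exact Pool.Agent.Helper92.MQ.mem_box.2 (hT d hd).1
    · exact (hT d hd).2 (hasFlow_of hab (hT d hd).1
        (fun A Λ hP t s ht _ h0 => hP t ht s h0) hon)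

/-- **Main theorem.**  The density theorem for the heat flow, and the theorem on all heights, for all
elliptic curves `y² = x³ + a x + b` with `j`-invariant `0` or `1728`, for all quadratic twists of `X₀(11)` and
`X₀(14)`, and for every elliptic curve over `ℚ` whose quadratic twists are modular. -/
theorem result : (∀ a b : ℤ, Curve a b → FlowDensity a b ∧ FlowAllHeights a b) ∧
    ∀ a b : ℤ, 4 * a ^ 3 + 27 * b ^ 2 ≠ 0 → TwistsModular a b → FlowDensity a b ∧ FlowAllHeights a b := by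
  refine ⟨fun a b hab => ?_, fun a b hab h => ?_⟩
  · have hF : Pool.Agent.Y19.QT.Fam a b := hab
    exact law_of hF.disc (Pool.Agent.Helper92.HF.allTw hF) hF.data.1 hF.data.2
  · exact law_of hab (Pool.Agent.Helper92.HF.allTw_of_modular h)
      (Pool.Agent.Y19.QT.hasTwists_of _ _ hab h) (Pool.Agent.Y19.QT.exists_LFun _ _ hab h)

end Pool.Agent.Results.MP_fb225e_nt.HeatFlowDensity
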