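import Pool.Agent.Helper92.MQ.Main
import Pool.Agent.Y19.QT.Fams

/-!
# The zeros of `L(E/K, s)` off the line `Re s = 1`, for almost all multiquadratic fields `K`

`E : y² = x³ + a x + b` is an elliptic curve over `ℚ`, with or without complex multiplication, and
`K = ℚ(√d₁, …, √d_k)` is a multiquadratic field of degree `2^k`, `k` arbitrary, `d_i` squarefree
(positive or negative), `|d_i| ≤ X`.

We prove, without any hypothesis, for all `E` with `j`-invariant `0` or `1728` and for all quadratic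
twists of `X₀(11)` and `X₀(14)`, and for every `E` over `ℚ` whose quadratic twists are modular:

* `L(E/K, s)` is analytic for `Re s > 1/2` and becomes entire after removing finitely many Euler
  factors, for all these `K`;
* (density theorem) the number of the zeros of `L(E/K, s)/L(E, s)` with `Re s ≥ σ`, `|Im s| ≤ U`, summed
  over all `K`, is at most `C (1 + U)^B X^(k - c (σ - 1)) (log X)^A` for all `σ ≥ 1` (`c > 0`);
* for every `B` there is a `K'` such that for all `(d₁, …, d_k)` except `O(X^k / (log X)^B)` all the zeros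
  `ρ` of `L(E/K, s)/L(E, s)` with `Re ρ > 3/4`, at any height, satisfy
  `|Re ρ - 1| ≤ K' (log log X + log (2 + |Im ρ|)) / log X`.

Proof.  (1) The law of decomposition in `K` and the count of the points over the residue fields:
`L(E/K, s)` is, up to Euler factors without zeros for `Re s > 1/2`, the product of the `L(E_D, s)`, `D` the
squarefree parts of the `2^k` products of the `d_i`.  (2) The density theorem for the quadratic twists
(starting result `MP_553913_nt.TwistZeroDensity`).  (3) The squarefree part `D` of a product of `m` of the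
`d_i` runs through the squarefree numbers up to `X^m`, but with very different multiplicities `r(D)`.  The
mean square of `r(D)` is at most `X^m` times a power of `log X`: the number of the `2m`-tuples of
squarefree integers up to `X` whose product is a square is at most `X^m (1 + log X)^(4^m)` (decomposition of
the `n_i` according to the sets of the `n_i` divisible by each prime, and Rankin's method).  Cauchy's
inequality, and a bound for the number of the zeros of a single `L(E_D, s)`.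
-/

set_option autoImplicit false

open NumberField IsDedekindDomain
open scoped ENNReal

namespace Pool.Agent.Results.MP_fb225e_nt.MultiquadraticFields

open Pool.Agent.Y19.QT (IsLFun Fam TwistsModular)

/-- `K = ℚ(√d₁, …, √d_k)` and `[K : ℚ] = 2^k` -/
structure IsMultiquadratic {k : ℕ} (d : Fin k → ℤ) (K : Type) [Field K] [NumberField K] :
    Prop where
  generated : ∃ x : Fin k → K, (∀ i, x i ^ 2 = (d i : K)) ∧ Algebra.adjoin ℚ (Set.range x) = ⊤
  degree : Module.finrank ℚ K = 2 ^ k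

/-- `1 - a n^(-s) + ε n^(1-2s)` -/
noncomputable def localPoly (a ε : ℤ) (n : ℕ) (s : ℂ) : ℂ :=
  1 - (a : ℂ) * (n : ℂ) ^ (-s) + (ε : ℂ) * (n : ℂ) ^ (1 - 2 * s)

/-- the `(a, ε)` which are possible for the Euler factor `(1 - a n^(-s) + ε n^(1-2s))⁻¹` of an
elliptic curve at a place with `n` residue classes: `ε = 1` and `a² ≤ 4 n` (good reduction, Hasse) or
`ε = 0` and `a ∈ {-1, 0, 1}` (bad reduction) -/
def Possible (n : ℕ) (a ε : ℤ) : Prop := (ε = 1 ∧ a ^ 2 ≤ 4 * (n : ℤ)) ∨ (ε = 0 ∧ a ^ 2 ≤ 1)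

section

variable {K : Type} [Field K] [NumberField K]

/-- `Nv` minus the number of the affine points of `y² = x³ + a x + b` over the residue field of `v` -/
noncomputable def trace (a b : ℤ) (v : HeightOneSpectrum (𝓞 K)) : ℤ :=
  ((Ideal.absNorm v.asIdeal : ℕ) : ℤ) - ((Nat.card {p : (𝓞 K ⧸ v.asIdeal) × (𝓞 K ⧸ v.asIdeal) //
    p.2 ^ 2 = p.1 ^ 3 + (a : 𝓞 K ⧸ v.asIdeal) * p.1 + (b : 𝓞 K ⧸ v.asIdeal)} : ℕ) : ℤ)

open Classical in
/-- The Euler factor at `v` of `E : y² = x³ + a x + b` over `K`: if `v` does not divide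
`2 (4a³ + 27b²)`, then the reduction is good, and it is `(1 - a_v (Nv)^(-s) + (Nv)^(1-2s))⁻¹`, where
`a_v` is `Nv` minus the number of the affine points of the reduction; for the finitely many other
places it is the factor given by `(α v, β v)`. -/
noncomputable def factor (a b : ℤ) (α β : HeightOneSpectrum (𝓞 K) → ℤ) (s : ℂ)
    (v : HeightOneSpectrum (𝓞 K)) : ℂ :=
  if ((2 * (4 * a ^ 3 + 27 * b ^ 2) : ℤ) : 𝓞 K) ∈ v.asIdeal then
    (localPoly (α v) (β v) (Ideal.absNorm v.asIdeal) s)⁻¹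
  else (localPoly (trace a b v) 1 (Ideal.absNorm v.asIdeal) s)⁻¹

/-- `L` is the L-function of `E : y² = x³ + a x + b` over `K`, with the Euler factors given by `α`, `β`
at the places dividing `2 (4a³ + 27b²)`: it is analytic for `Re s > 1/2`, and for `Re s > 3/2` it is the
product over all places of `K` of the Euler factors; these are possible ones. -/
structure IsLFunction (a b : ℤ) (α β : HeightOneSpectrum (𝓞 K) → ℤ) (L : ℂ → ℂ) : Prop where
  possible : ∀ v : HeightOneSpectrum (𝓞 K), ((2 * (4 * a ^ 3 + 27 * b ^ 2) : ℤ) : 𝓞 K) ∈ v.asIdeal →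
    Possible (Ideal.absNorm v.asIdeal) (α v) (β v)
  analytic : AnalyticOnNhd ℂ L {s : ℂ | 1 / 2 < s.re}
  euler : ∀ s : ℂ, 3 / 2 < s.re → HasProd (factor a b α β s) (L s)

end

/-- `L` is the L-function of `E : y² = x³ + a x + b` over a field `K = ℚ(√d₁, …, √d_k)` of degree `2^k` -/
def IsLOver (a b : ℤ) {k : ℕ} (d : Fin k → ℤ) (L : ℂ → ℂ) : Prop :=
  ∃ (K : Type) (_ : Field K) (_ : NumberField K), IsMultiquadratic d K ∧
    ∃ α β : HeightOneSpectrum (𝓞 K) → ℤ, IsLFunction a b α β L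

/-- the `d_i` are squarefree and `|d_i| ≤ X` -/
def InBox (X : ℕ) {k : ℕ} (d : Fin k → ℤ) : Prop := ∀ i, |d i| ≤ X ∧ Squarefree (d i)

/-- the number of the zeros of `L/F`, with multiplicity, in the region `Re s ≥ σ`, `|Im s| ≤ U` -/
noncomputable def newZeros (L F : ℂ → ℂ) (σ U : ℝ) : ℝ≥0∞ :=
  ∑' ρ : ℂ, if σ ≤ ρ.re ∧ |ρ.im| ≤ U then
    ((analyticOrderAt L ρ - analyticOrderAt F ρ : ℕ∞) : ℝ≥0∞) else 0

/-- The L-function of `E` over `ℚ` (`F`, an entire function) and over all multiquadratic fields exists,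
for all possible Euler factors at the places dividing `2 (4a³ + 27b²)`.  The latter, multiplied with
the Euler polynomials at the places dividing `2 (4a³ + 27b²) d₁ … d_k`, is an entire function `G`; and it
vanishes at the zeros of `F` with at least the same multiplicity. -/
def Continuation (a b : ℤ) : Prop :=
  ∃ F : ℂ → ℂ, IsLFun a b F ∧ ∀ (k : ℕ) (d : Fin k → ℤ), (∀ i, Squarefree (d i)) →
    ∀ (K : Type) [Field K] [NumberField K], IsMultiquadratic d K →
    ∀ α β : HeightOneSpectrum (𝓞 K) → ℤ, (∀ v : HeightOneSpectrum (𝓞 K),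
      ((2 * (4 * a ^ 3 + 27 * b ^ 2) : ℤ) : 𝓞 K) ∈ v.asIdeal →
        Possible (Ideal.absNorm v.asIdeal) (α v) (β v)) →
    ∃ L G : ℂ → ℂ, IsLFunction a b α β L ∧ Differentiable ℂ G ∧
      (∀ s : ℂ, 1 / 2 < s.re → G s = L s * ∏ᶠ v ∈ {v : HeightOneSpectrum (𝓞 K) |
        ((2 * (4 * a ^ 3 + 27 * b ^ 2) * ∏ i, d i : ℤ) : 𝓞 K) ∈ v.asIdeal},
          (factor a b α β s v)⁻¹) ∧
      ∀ ρ : ℂ, 1 / 2 < ρ.re → analyticOrderAt F ρ ≤ analyticOrderAt L ρ

/-- The density theorem: for every `k` the number of the zeros of `L(E/K, s)/L(E, s)`, with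
multiplicity, in the region `Re s ≥ σ`, `|Im s| ≤ U`, summed over all (or over some) `(d₁, …, d_k)`, `d_i`
squarefree, `|d_i| ≤ X`, for which `K = ℚ(√d₁, …, √d_k)` is of degree `2^k`, is at most
`C (1 + U)^B X^(k - c (σ - 1)) (log X)^A`. -/
def Density (a b : ℤ) : Prop :=
  ∀ k : ℕ, ∃ (C c : ℝ) (A B : ℕ), 0 < c ∧
    ∀ (X : ℕ) (σ U : ℝ), 3 ≤ X → 1 ≤ σ → 0 ≤ U → ∀ F : ℂ → ℂ, IsLFun a b F →
    ∀ (T : Finset (Fin k → ℤ)) (L : (Fin k → ℤ) → ℂ → ℂ),
      (∀ d ∈ T, InBox X d ∧ IsLOver a b d (L d)) →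
      ∑ d ∈ T, newZeros (L d) F σ U ≤
        ENNReal.ofReal (C * (1 + U) ^ B * (X : ℝ) ^ (k - c * (σ - 1)) * Real.log X ^ A)

/-- For all `k`, `B` there are `C`, `K'` such that the number of the `(d₁, …, d_k)`, `d_i` squarefree,
`|d_i| ≤ X`, for which `K = ℚ(√d₁, …, √d_k)` is of degree `2^k` and `L(E/K, s)/L(E, s)` has a zero `ρ` (at any
height) with `Re ρ > 3/4` and `|Re ρ - 1| ≥ K' (log log X + log (2 + |Im ρ|)) / log X` is at most
`C X^k / (log X)^B`. -/
def AlmostAll (a b : ℤ) : Prop :=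
  ∀ k B : ℕ, ∃ C K' : ℝ, ∀ X : ℕ, 3 ≤ X → ∀ F : ℂ → ℂ, IsLFun a b F →
    ∀ (T : Finset (Fin k → ℤ)) (L : (Fin k → ℤ) → ℂ → ℂ),
      (∀ d ∈ T, InBox X d ∧ IsLOver a b d (L d) ∧
        ∃ ρ : ℂ, analyticOrderAt F ρ < analyticOrderAt (L d) ρ ∧ 3 / 4 < ρ.re ∧
          K' * ((Real.log (Real.log X) + Real.log (2 + |ρ.im|)) / Real.log X) ≤ |ρ.re - 1|) →
      (T.card : ℝ) ≤ C * (X : ℝ) ^ k / Real.log X ^ B

/-- The continuation, the density theorem and the theorem on almost all multiquadratic fields for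
`E : y² = x³ + a x + b`. -/
def Law (a b : ℤ) : Prop := Continuation a b ∧ Density a b ∧ AlmostAll a b

section
open Pool.Agent.Helper92.MQ

variable {K : Type} [Field K] [NumberField K]

lemma factor_eq (a b : ℤ) (α β : HeightOneSpectrum (𝓞 K) → ℤ) (s : ℂ)
    (v : HeightOneSpectrum (𝓞 K)) : factor a b α β s v = (pol a b α β v s)⁻¹ := by
  have h : trace a b v = trv a b v := by
    unfold trace trv Pool.Agent.Helper92.CM.trc
    rw [Ideal.absNorm_apply, Submodule.cardQuot_apply]
  unfold factor pol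
  rw [h]
  split_ifs
  · rfl
  · rfl

lemma toENNReal_sum {ι : Type} (T : Finset ι) (g : ι → ℕ∞) :
    ((∑ i ∈ T, g i : ℕ∞) : ℝ≥0∞) = ∑ i ∈ T, ((g i : ℕ∞) : ℝ≥0∞) := by
  classical
  induction T using Finset.induction_on with
  | empty => simp
  | insert i T hi ih => rw [Finset.sum_insert hi, Finset.sum_insert hi, ENat.toENNReal_add, ih]

/-- the orders of the L-function over `K` -/
lemma order_over {a b : ℤ} (hab : 4 * a ^ 3 + 27 * b ^ 2 ≠ 0) (F : ℤ → ℂ → ℂ)
    (hF : ∀ D : ℤ, Squarefree D → IsLFun (a * D ^ 2) (b * D ^ 3) (F D)) {k : ℕ} {d : Fin k → ℤ}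
    (hd : ∀ i, d i ≠ 0) {L : ℂ → ℂ} (hL : IsLOver a b d L) {s : ℂ} (hs : 1 / 2 < s.re) :
    analyticOrderAt L s = ∑ S : Finset (Fin k), analyticOrderAt (F (sf (∏ i ∈ S, d i))) s := by
  obtain ⟨K, hK1, hK2, ⟨⟨x, hx, hgen⟩, hdeg⟩, α, β, hpos, han, heu⟩ := hL
  obtain ⟨L', G, l1, l2, -, -, l5⟩ := exists_L (⟨hx, hgen, hdeg⟩ : IsMQ d K x) hd hab F hF
    (α := α) (β := β) hpos
  rw [← l5 s hs]
  refine order_unique han l1 heu (fun s hs => ?_) hs
  exact (l2 s hs).congr_fun fun v => factor_eq a b α β s v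

lemma law_of {a b : ℤ} (hab : 4 * a ^ 3 + 27 * b ^ 2 ≠ 0) (h : Pool.Agent.Y19.QT.HasTwists a b)
    (hL : ∀ d : ℤ, Squarefree d → ∃ F : ℂ → ℂ, IsLFun (a * d ^ 2) (b * d ^ 3) F) : Law a b := by
  classical
  have hex : ∀ D : ℤ, ∃ F : ℂ → ℂ, Squarefree D → IsLFun (a * D ^ 2) (b * D ^ 3) F := by
    intro D
    by_cases hD : Squarefree D
    · obtain ⟨F, hF⟩ := hL D hD
      exact ⟨F, fun _ => hF⟩
    · exact ⟨fun _ => 0, fun h => absurd h hD⟩
  choose F hF using hex
  have hone : IsLFun a b (F 1) := by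
    have := hF 1 squarefree_one
    rw [one_pow, mul_one, one_pow, mul_one] at this
    exact this
  have huniq : ∀ G : ℂ → ℂ, IsLFun a b G → G = F 1 := fun G hG =>
    Pool.Agent.Y19.QT.isLFun_unique hG hone
  obtain ⟨-, hlaw⟩ := Pool.Agent.Y19.QT.densityLaw_of hab h hL
  obtain ⟨hden, hfar⟩ := hlaw F hF
  have hempty : ∀ {k : ℕ} (d : Fin k → ℤ), F (sf (∏ i ∈ (∅ : Finset (Fin k)), d i)) = F 1 := by
    intro k d
    rw [Finset.prod_empty, sf_one]
  have hbox : ∀ {X k : ℕ} {d : Fin k → ℤ}, InBox X d → d ∈ box (Fin k) X := fun hd =>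
    mem_box.2 hd
  have hsplit : ∀ {k : ℕ} (g : Finset (Fin k) → ℕ∞), ∑ S : Finset (Fin k), g S =
      g ∅ + ∑ S ∈ Finset.univ.filter (fun S : Finset (Fin k) => S.Nonempty), g S := by
    intro k g
    rw [← Finset.add_sum_erase _ _ (Finset.mem_univ (∅ : Finset (Fin k)))]
    congr 1
    refine Finset.sum_congr ?_ fun _ _ => rfl
    ext S
    simp [Finset.nonempty_iff_ne_empty]
  refine ⟨⟨F 1, hone, ?_⟩, ?_, ?_⟩
  · intro k d hd K _ _ hK α β hpos
    obtain ⟨⟨x, hx, hgen⟩, hdeg⟩ := hK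
    obtain ⟨L, G, l1, l2, l3, l4, l5⟩ := exists_L (⟨hx, hgen, hdeg⟩ : IsMQ d K x)
      (fun i => (hd i).ne_zero) hab F (fun D hD => hF D hD) (α := α) (β := β) hpos
    refine ⟨L, G, ⟨hpos, l1, fun s hs => (l2 s hs).congr_fun fun v => factor_eq a b α β s v⟩, l3,
      fun s hs => ?_, fun ρ hρ => ?_⟩
    · rw [l4 s hs]
      congr 1
      refine finprod_mem_congr rfl fun v _ => ?_
      rw [factor_eq, inv_inv]
    · rw [l5 ρ hρ, hsplit, hempty]
      exact le_self_add
  · intro k
    obtain ⟨C, c, A, B, hC, hc, H⟩ := density_mq hab h F hF hden k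
    refine ⟨2 ^ k * C, c, A, B, hc, fun X σ U hX hσ hU G hG T L hT => ?_⟩
    rw [huniq G hG]
    have h1 : ∀ d ∈ T, newZeros (L d) (F 1) σ U ≤
        ∑ S ∈ Finset.univ.filter (fun S : Finset (Fin k) => S.Nonempty),
          Pool.Agent.Y19.QT.zcount (F (sf (∏ i ∈ S, d i))) σ U := by
      intro d hd
      obtain ⟨hd1, hd2⟩ := hT d hd
      unfold newZeros Pool.Agent.Y19.QT.zcount
      rw [← Summable.tsum_finsetSum (fun _ _ => ENNReal.summable)]
      refine ENNReal.tsum_le_tsum fun ρ => ?_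
      by_cases hρ : σ ≤ ρ.re ∧ |ρ.im| ≤ U
      · rw [if_pos hρ]
        have h2 := order_over hab F hF (fun i => (hd1 i).2.ne_zero) hd2 (s := ρ) (by linarith)
        have h3 : analyticOrderAt (L d) ρ - analyticOrderAt (F 1) ρ ≤
            ∑ S ∈ Finset.univ.filter (fun S : Finset (Fin k) => S.Nonempty),
              analyticOrderAt (F (sf (∏ i ∈ S, d i))) ρ := by
          rw [h2, hsplit, hempty]
          exact tsub_le_iff_left.2 le_rfl
        have h4 := ENat.toENNReal_mono h3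
        refine h4.trans ?_
        rw [toENNReal_sum]
        refine Finset.sum_le_sum fun S _ => ?_
        by_cases h0 : F (sf (∏ i ∈ S, d i)) ρ = 0
        · rw [if_pos ⟨h0, hρ⟩]
        · rw [if_neg (fun h5 => h0 h5.1)]
          have h6 : analyticOrderAt (F (sf (∏ i ∈ S, d i))) ρ = 0 :=
            ((hF _ (sf_squarefree _)).1.analyticAt ρ).analyticOrderAt_eq_zero.2 h0
          rw [h6]
          simp
      · rw [if_neg hρ]
        exact zero_le
    calc ∑ d ∈ T, newZeros (L d) (F 1) σ U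
        ≤ ∑ d ∈ T, ∑ S ∈ Finset.univ.filter (fun S : Finset (Fin k) => S.Nonempty),
            Pool.Agent.Y19.QT.zcount (F (sf (∏ i ∈ S, d i))) σ U := Finset.sum_le_sum h1
      _ ≤ ∑ d ∈ box (Fin k) X, ∑ S ∈ Finset.univ.filter (fun S : Finset (Fin k) => S.Nonempty),
            Pool.Agent.Y19.QT.zcount (F (sf (∏ i ∈ S, d i))) σ U :=
          Finset.sum_le_sum_of_subset fun d hd => hbox (hT d hd).1
      _ = ∑ S ∈ Finset.univ.filter (fun S : Finset (Fin k) => S.Nonempty),
            ∑ d ∈ box (Fin k) X, Pool.Agent.Y19.QT.zcount (F (sf (∏ i ∈ S, d i))) σ U :=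
          Finset.sum_comm
      _ ≤ ∑ S ∈ Finset.univ.filter (fun S : Finset (Fin k) => S.Nonempty),
            ENNReal.ofReal (C * (1 + U) ^ B * (X : ℝ) ^ (k - c * (σ - 1)) * Real.log X ^ A) :=
          Finset.sum_le_sum fun S hS => H X σ U hX hσ hU S (Finset.mem_filter.1 hS).2
      _ ≤ 2 ^ k * ENNReal.ofReal (C * (1 + U) ^ B * (X : ℝ) ^ (k - c * (σ - 1)) *
            Real.log X ^ A) := by
          rw [Finset.sum_const, nsmul_eq_mul]
          refine mul_le_mul_left ?_ _
          have h3 := Finset.card_filter_le (Finset.univ : Finset (Finset (Fin k)))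
            (fun S => S.Nonempty)
          rw [Finset.card_univ, Fintype.card_finset, Fintype.card_fin] at h3
          exact_mod_cast h3
      _ = _ := by
          have h5 : (2 : ℝ≥0∞) ^ k = ENNReal.ofReal (2 ^ k) := by
            rw [ENNReal.ofReal_pow (by norm_num)]
            norm_num
          rw [h5, ← ENNReal.ofReal_mul (by positivity)]
          congr 1
          ring
  · intro k B
    obtain ⟨C, K', H⟩ := far_mq F hfar k B
    refine ⟨C, K', fun X hX G hG T L hT => ?_⟩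
    rw [huniq G hG] at hT
    refine H X T hX (fun d hd => hbox (hT d hd).1) fun d hd => ?_
    obtain ⟨hd1, hd2, ρ, h1, h2, h3⟩ := hT d hd
    have h4 := order_over hab F hF (fun i => (hd1 i).2.ne_zero) hd2 (s := ρ) (by linarith)
    rw [h4, hsplit, hempty] at h1
    by_contra hcon
    push Not at hcon
    have h5 : ∑ S ∈ Finset.univ.filter (fun S : Finset (Fin k) => S.Nonempty),
        analyticOrderAt (F (sf (∏ i ∈ S, d i))) ρ = 0 := by
      refine Finset.sum_eq_zero fun S hS => ?_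
      rw [((hF _ (sf_squarefree _)).1.analyticAt ρ).analyticOrderAt_eq_zero]
      intro h0
      exact absurd h3 (not_le.2 (hcon S (Finset.mem_filter.1 hS).2 ρ h0 h2))
    rw [h5, add_zero] at h1
    exact lt_irrefl _ h1

end

/-- **Main theorem.**  The law holds for all elliptic curves `y² = x³ + a x + b` with `j`-invariant `0` or
`1728`, for all quadratic twists of `X₀(11)` and `X₀(14)`, and for every elliptic curve over `ℚ` whose
quadratic twists are modular. -/
theorem result : (∀ a b : ℤ, Fam a b → Law a b) ∧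
    ∀ a b : ℤ, 4 * a ^ 3 + 27 * b ^ 2 ≠ 0 → TwistsModular a b → Law a b :=
  ⟨fun _ _ h => law_of h.disc h.data.1 h.data.2, fun _ _ hab h =>
    law_of hab (Pool.Agent.Y19.QT.hasTwists_of _ _ hab h)
      (Pool.Agent.Y19.QT.exists_LFun _ _ hab h)⟩

end Pool.Agent.Results.MP_fb225e_nt.MultiquadraticFields
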